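import Pool.Agent.EGF.StmtsV

set_option autoImplicit false

/-! Row PLT of the squad EGF: plateaus. -/

namespace Pool.Agent.EGF.H43

open Finset Pool.Agent.EGF

section

variable {V : Type} [DecidableEq V] {k : ℕ}

/-- the density of a triple -/
noncomputable def den (c : V → V → Fin k) (x : (Finset V × Finset V) × Fin k) : ℝ :=
  ((prs c x.2 x.1.1 x.1.2).card : ℝ) / (x.1.1.card * x.1.2.card)

open Classical in
/-- the admissible triples of a level -/
noncomputable def adm (U : Finset V) (s : ℝ) : Finset ((Finset V × Finset V) × Fin k) :=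
  ((U.powerset ×ˢ U.powerset) ×ˢ (univ : Finset (Fin k))).filter fun x =>
    Disjoint x.1.1 x.1.2 ∧ x.1.1.Nonempty ∧ x.1.2.Nonempty ∧
      Real.log U.card - s ≤ Real.log x.1.1.card ∧ Real.log U.card - s ≤ Real.log x.1.2.card

theorem mem_adm {U : Finset V} {s : ℝ} {x : (Finset V × Finset V) × Fin k} :
    x ∈ adm U s ↔ (x.1.1 ⊆ U ∧ x.1.2 ⊆ U) ∧ Disjoint x.1.1 x.1.2 ∧ x.1.1.Nonempty ∧
      x.1.2.Nonempty ∧ Real.log U.card - s ≤ Real.log x.1.1.card ∧
      Real.log U.card - s ≤ Real.log x.1.2.card := by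
  unfold adm
  simp only [mem_filter, mem_product, mem_powerset, mem_univ, and_true]

theorem adm_mono {U : Finset V} {s s' : ℝ} (h : s ≤ s') :
    (adm U s : Finset ((Finset V × Finset V) × Fin k)) ⊆ adm U s' := by
  intro x hx
  rw [mem_adm] at hx ⊢
  obtain ⟨h1, h2, h3, h4, h5, h6⟩ := hx
  exact ⟨h1, h2, h3, h4, by linarith, by linarith⟩

theorem pos_adm {U : Finset V} {s : ℝ} {x : (Finset V × Finset V) × Fin k} (hx : x ∈ adm U s) :
    (0 : ℝ) < x.1.1.card * x.1.2.card := by
  rw [mem_adm] at hx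
  obtain ⟨_, _, h3, h4, _, _⟩ := hx
  have a : (0 : ℝ) < x.1.1.card := by exact_mod_cast h3.card_pos
  have b : (0 : ℝ) < x.1.2.card := by exact_mod_cast h4.card_pos
  exact mul_pos a b

theorem den_le_one (c : V → V → Fin k) {U : Finset V} {s : ℝ}
    {x : (Finset V × Finset V) × Fin k} (hx : x ∈ adm U s) : den c x ≤ 1 := by
  unfold den
  rw [div_le_one (pos_adm hx)]
  have h : (prs c x.2 x.1.1 x.1.2).card ≤ x.1.1.card * x.1.2.card := by
    unfold prs
    refine (Finset.card_filter_le _ _).trans ?_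
    rw [Finset.card_product]
  exact_mod_cast h

end

theorem plt : PltStmt := by
  intro V _ k c U S R q A0 B0 e0 hS hq hA0 hB0 hdis hA0n hB0n hA0l hB0l hq0
  have hx0 : ((A0, B0), e0) ∈ adm U (S 0) :=
    mem_adm.2 ⟨⟨hA0, hB0⟩, hdis, hA0n, hB0n, hA0l, hB0l⟩
  have hS' : Monotone S := monotone_nat_of_le_succ hS
  have hx0' : ∀ j, ((A0, B0), e0) ∈ adm U (S j) := fun j =>
    adm_mono (hS' (Nat.zero_le j)) hx0
  have hmax : ∀ j, ∃ x ∈ (adm U (S j) : Finset ((Finset V × Finset V) × Fin k)),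
      ∀ y ∈ adm U (S j), den c y ≤ den c x := fun j =>
    Finset.exists_max_image _ _ ⟨_, hx0' j⟩
  choose x hx hmx using hmax
  have hd0 : q ≤ den c ((A0, B0), e0) := by
    unfold den
    rw [le_div_iff₀ (pos_adm hx0)]
    exact hq0
  have hqM : ∀ j, q ≤ den c (x j) := fun j => hd0.trans (hmx j _ (hx0' j))
  have hM1 : ∀ j, den c (x j) ≤ 1 := fun j => den_le_one c (hx j)
  have hMm : ∀ j, den c (x j) ≤ den c (x (j + 1)) := fun j =>
    hmx (j + 1) _ (adm_mono (hS j) (hx j))
  classical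
  set P : ℕ → Prop := fun j => (1 + 1 / 1000) * den c (x j) < den c (x (j + 1)) with hP
  have hind : ∀ i : ℕ, (1 + 1 / 1000 : ℝ) ^ ((range i).filter P).card * q ≤ den c (x i) := by
    intro i
    induction i with
    | zero =>
      rw [Finset.range_zero, Finset.filter_empty, Finset.card_empty, pow_zero, one_mul]
      exact hqM 0
    | succ i ih =>
      rw [Finset.range_add_one, Finset.filter_insert]
      by_cases h : P i
      · rw [if_pos h, Finset.card_insert_of_notMem (by simp), pow_succ]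
        have h2 : (1 + 1 / 1000) * den c (x i) < den c (x (i + 1)) := h
        calc (1 + 1 / 1000 : ℝ) ^ ((range i).filter P).card * (1 + 1 / 1000) * q
            = (1 + 1 / 1000) * ((1 + 1 / 1000 : ℝ) ^ ((range i).filter P).card * q) := by ring
          _ ≤ (1 + 1 / 1000) * den c (x i) := mul_le_mul_of_nonneg_left ih (by norm_num)
          _ ≤ den c (x (i + 1)) := h2.le
      · rw [if_neg h]
        exact ih.trans (hMm i)
  refine ⟨(range R).filter P, Finset.filter_subset _ _, ?_, ?_⟩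
  · have h1 := (hind R).trans (hM1 R)
    have h2 : (1 + 1 / 1000 : ℝ) ^ ((range R).filter P).card ≤ 1 / q := by
      rw [le_div_iff₀ hq]
      exact h1
    have h3 := Real.log_le_log (by positivity) h2
    rw [Real.log_pow] at h3
    exact h3
  · intro j hj
    rw [Finset.mem_sdiff, Finset.mem_filter] at hj
    obtain ⟨hj1, hj2⟩ := hj
    have hj3 : den c (x (j + 1)) ≤ (1 + 1 / 1000) * den c (x j) := by
      by_contra h
      exact hj2 ⟨hj1, not_le.1 h⟩
    obtain ⟨⟨a1, a2⟩, a3, a4, a5, a6, a7⟩ := mem_adm.1 (hx j)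
    refine ⟨(x j).1.1, (x j).1.2, (x j).2, den c (x j), a1, a2, a3, a4, a5, a6, a7, hqM j,
      hM1 j, ?_, ?_⟩
    · have := pos_adm (hx j)
      unfold den
      rw [div_mul_cancel₀ _ this.ne']
    · intro A' hA' B' hB' hd hn1 hn2 hl1 hl2
      have hy : ((A', B'), (x j).2) ∈ adm U (S (j + 1)) :=
        mem_adm.2 ⟨⟨hA', hB'⟩, hd, hn1, hn2, hl1, hl2⟩
      have h1 := (hmx (j + 1) _ hy).trans hj3
      have h2 : ((prs c (x j).2 A' B').card : ℝ) / (A'.card * B'.card) ≤
        (1 + 1 / 1000) * den c (x j) := h1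
      have h3 : (0 : ℝ) < A'.card * B'.card := pos_adm hy
      rwa [div_le_iff₀ h3] at h2

end Pool.Agent.EGF.H43
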